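import Pool.Agent.W21.RV.Defs
import Pool.Agent.H442R2.BX.Co
import Pool.Agent.H442R2.BX.Sm

set_option autoImplicit false
set_option linter.all false

namespace Pool.Agent.W918.RV

open Finset
open Pool.Agent.H442R2
open Pool.Agent.H442R2.KF
open Pool.Agent.W21.RV

theorem log_le (δ : ℝ) (hδ : 0 < δ) :
    ∃ N₁ : ℕ, ∀ N : ℕ, N₁ ≤ N → (N : ℝ) ^ (1 - δ) * Real.log N ≤ N := by
  have h1 := (isLittleO_log_rpow_atTop hδ).bound (show (0:ℝ) < 1 by norm_num)
  have h2 := (tendsto_natCast_atTop_atTop (R := ℝ)).eventually h1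
  obtain ⟨N₁, hN₁⟩ := Filter.eventually_atTop.1 h2
  refine ⟨max N₁ 1, fun N hN => ?_⟩
  have h3 := hN₁ N ((le_max_left _ _).trans hN)
  have hN1 : 1 ≤ N := (le_max_right _ _).trans hN
  have hN0 : (0:ℝ) < N := by exact_mod_cast hN1
  rw [one_mul, Real.norm_of_nonneg (by positivity : (0:ℝ) ≤ (N:ℝ) ^ δ)] at h3
  have h4 : Real.log N ≤ (N : ℝ) ^ δ := (le_abs_self _).trans h3
  calc (N : ℝ) ^ (1 - δ) * Real.log N ≤ (N : ℝ) ^ (1 - δ) * (N : ℝ) ^ δ :=
        mul_le_mul_of_nonneg_left h4 (by positivity)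
    _ = N := by
        rw [← Real.rpow_add hN0]
        norm_num

/-- CO -/
theorem CO (hSV : BX.St_SV) : St_CO := by
  intro θ hθ
  obtain ⟨θ₁, hθ₁⟩ : ∃ θ₁ : ℝ, θ₁ = max θ 0 := ⟨_, rfl⟩
  have h1 : θ ≤ θ₁ := hθ₁ ▸ le_max_left _ _
  have h2 : 0 ≤ θ₁ := hθ₁ ▸ le_max_right _ _
  have h3 : θ₁ < 1 / 2 := by rw [hθ₁]; exact max_lt hθ (by norm_num)
  obtain ⟨δ, hδ⟩ : ∃ δ : ℝ, δ = (1 - 2 * θ₁) / 4 := ⟨_, rfl⟩
  have hδ0 : 0 < δ := by rw [hδ]; linarith
  have hδ1 : δ ≤ 1 / 4 := by rw [hδ]; linarith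
  obtain ⟨N₀, hSV'⟩ := hSV
  obtain ⟨N₁, hN₁⟩ := log_le (3 * δ) (by positivity)
  obtain ⟨K₀, hK₀⟩ : ∃ K₀ : ℝ, K₀ = ∑ N ∈ range (max N₀ N₁),
    (N : ℝ) ^ 2 * ((∑' n : ℤ, Wt N n) + N) := ⟨_, rfl⟩
  have hKterm : ∀ N : ℕ, 0 ≤ (N : ℝ) ^ 2 * ((∑' n : ℤ, Wt N n) + N) := by
    intro N
    have : 0 ≤ ∑' n : ℤ, Wt N n := tsum_nonneg fun n => (Real.exp_pos _).le
    positivity
  have hK₀' : 0 ≤ K₀ := by rw [hK₀]; exact sum_nonneg fun N _ => hKterm N
  refine ⟨δ, 1, K₀ + 1, hδ0, one_pos, by positivity, ?_⟩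
  intro N q D0 X hN hq hodd hqN hX hD hXD a a' haa c c' hc hc'
  have hN1 : (1 : ℝ) ≤ N := by
    have : 1 ≤ N := by omega
    exact_mod_cast this
  have hN0 : (0 : ℝ) < N := by linarith
  have hX' : (X : ℝ) ≤ (N : ℝ) ^ θ₁ := hX.trans (Real.rpow_le_rpow_of_exponent_le hN1 h1)
  have hXNR : (X : ℝ) ≤ N := by
    have : (X : ℝ) ≤ (N : ℝ) ^ (1 : ℝ) :=
      hX'.trans (Real.rpow_le_rpow_of_exponent_le hN1 (by linarith))
    rwa [Real.rpow_one] at this
  have hXN : X ≤ N := by exact_mod_cast hXNR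
  rw [sub_self, Real.rpow_zero, mul_one]
  rcases lt_or_ge N (max N₀ N₁) with hsm | hlg
  · have h12 := BX.TaskCO.triv N (by omega) q D0 X hXN a a' hq c c' hc hc'
    have h13 : (N : ℝ) ^ 2 * ((∑' n : ℤ, Wt N n) + N) ≤ K₀ := by
      rw [hK₀]
      exact single_le_sum (f := fun N : ℕ => (N : ℝ) ^ 2 * ((∑' n : ℤ, Wt N n) + N))
        (fun N _ => hKterm N) (mem_range.2 hsm)
    linarith
  · have hNN₀ : N₀ ≤ N := (le_max_left _ _).trans hlg
    have hNN₁ : N₁ ≤ N := (le_max_right _ _).trans hlg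
    have hlogN := hN₁ N hNN₁
    have hlog0 : 0 ≤ Real.log N := Real.log_nonneg hN1
    have hterm : ∀ d ∈ Ioc D0 X, ∀ d' ∈ (Ioc D0 X).filter (fun d' => Nat.Coprime d d'),
        |c d * c' d' * (BX.SE N a a' q d d' - N / (q * d * d'))| ≤ 1 / (N : ℝ) ^ 5 := by
      intro d hd d' hd'
      rw [mem_filter] at hd'
      have hcop := hd'.2
      have hd0 := mem_Ioc.1 hd
      have hd0' := mem_Ioc.1 hd'.1
      by_cases h0 : c d = 0
      · rw [h0, zero_mul, zero_mul, abs_zero]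
        positivity
      by_cases h0' : c' d' = 0
      · rw [h0', mul_zero, zero_mul, abs_zero]
        positivity
      have hq1 : Nat.Coprime q d :=
        (Nat.Coprime.coprime_dvd_right (Dvd.intro_left 2 rfl) (hc.cop d h0)).symm
      have hq2 : Nat.Coprime q d' :=
        (Nat.Coprime.coprime_dvd_right (Dvd.intro_left 2 rfl) (hc'.cop d' h0')).symm
      have hdX : (d : ℝ) ≤ (N : ℝ) ^ θ₁ := le_trans (by exact_mod_cast hd0.2) hX'
      have hdX' : (d' : ℝ) ≤ (N : ℝ) ^ θ₁ := le_trans (by exact_mod_cast hd0'.2) hX'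
      have hprod : (q : ℝ) * d * d' ≤ (N : ℝ) ^ (1 - 3 * δ) := by
        calc (q : ℝ) * d * d' ≤ (N : ℝ) ^ δ * (N : ℝ) ^ θ₁ * (N : ℝ) ^ θ₁ :=
              mul_le_mul (mul_le_mul hqN hdX (Nat.cast_nonneg _) (by positivity)) hdX'
                (Nat.cast_nonneg _) (by positivity)
          _ = (N : ℝ) ^ (1 - 3 * δ) := by
              rw [← Real.rpow_add hN0, ← Real.rpow_add hN0]
              congr 1
              rw [hδ]
              ring
      have hcube : (q : ℝ) * d * d' ≤ (N : ℝ) ^ 3 := by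
        refine hprod.trans ?_
        rw [← Real.rpow_natCast]
        exact Real.rpow_le_rpow_of_exponent_le hN1 (by norm_num; linarith)
      have hmul : (q : ℝ) * d * d' * Real.log N ≤ N :=
        (mul_le_mul_of_nonneg_right hprod hlog0).trans hlogN
      have h := hSV' N hNN₀ a a' q d d' hq (by omega) (by omega) hq1 hq2 hcop hcube 0
        (by simpa using hmul)
      rw [BX.TaskSM.term, mul_one, ← Complex.ofReal_sub, Complex.norm_real,
        Real.norm_eq_abs] at h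
      rw [abs_mul, abs_mul]
      calc |c d| * |c' d'| * _ ≤ 1 * 1 * (1 / (N : ℝ) ^ 5) :=
            mul_le_mul (mul_le_mul (hc.bd d) (hc'.bd d') (abs_nonneg _) zero_le_one) h
              (abs_nonneg _) (by norm_num)
        _ = _ := by ring
    have hcard : ((Ioc D0 X).card : ℝ) ≤ N := by
      rw [Nat.card_Ioc]
      exact_mod_cast (Nat.sub_le _ _).trans hXN
    have h5 : (0 : ℝ) ≤ 1 / (N : ℝ) ^ 5 := by positivity
    calc _ ≤ ∑ d ∈ Ioc D0 X, |∑ d' ∈ (Ioc D0 X).filter (fun d' => Nat.Coprime d d'),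
          c d * c' d' * (BX.SE N a a' q d d' - N / (q * d * d'))| := abs_sum_le_sum_abs _ _
      _ ≤ ∑ d ∈ Ioc D0 X, (N : ℝ) * (1 / (N : ℝ) ^ 5) := by
          refine sum_le_sum fun d hd => ?_
          calc _ ≤ ∑ d' ∈ (Ioc D0 X).filter (fun d' => Nat.Coprime d d'), (1 / (N : ℝ) ^ 5) :=
                (abs_sum_le_sum_abs _ _).trans (sum_le_sum fun d' hd' => hterm d hd d' hd')
            _ = (((Ioc D0 X).filter (fun d' => Nat.Coprime d d')).card : ℝ) *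
                (1 / (N : ℝ) ^ 5) := by rw [sum_const, nsmul_eq_mul]
            _ ≤ _ := by
                refine mul_le_mul_of_nonneg_right (le_trans ?_ hcard) h5
                exact_mod_cast card_filter_le _ _
      _ = ((Ioc D0 X).card : ℝ) * ((N : ℝ) * (1 / (N : ℝ) ^ 5)) := by
          rw [sum_const, nsmul_eq_mul]
      _ ≤ (N : ℝ) * ((N : ℝ) * (1 / (N : ℝ) ^ 5)) :=
          mul_le_mul_of_nonneg_right hcard (by positivity)
      _ = (N : ℝ) ^ 2 / (N : ℝ) ^ 5 := by ring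
      _ ≤ 1 := by
          rw [div_le_one (by positivity)]
          exact pow_le_pow_right₀ hN1 (by norm_num)
      _ ≤ K₀ + 1 := by linarith

end Pool.Agent.W918.RV
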